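import Mathlib

/-!
# A finite hypergroup which is not weakly nilpotent, all closed subsets being strongly subnormal

The hypergroup is `G // K` for `G = AGL(1, 8)`, of order 56, and `K` the group of order two
generated by the translation `x ↦ x + 1`; it has 16 elements, which we number as follows, where
`z ^ 3 = z + 1` in the field of eight elements and `v = v₀ + v₁ z + v₂ z ^ 2` is written as the
number `v₀ + 2 v₁ + 4 v₂`: the elements `0, 1, 2, 3` are the double cosets of the translations by
`0, 2, 4, 6`, and `4, 5`; `6, 7`; ...; `14, 15` are the double cosets of the maps `x ↦ z ^ i x + v`,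
`i = 1, …, 6`.  The proper closed subsets are contained in the group of order four `{0, 1, 2, 3}`,
and the centre is trivial.
-/

set_option autoImplicit false

namespace Pool.Agent.Results.MP_75e066_al.TrivialCentre

open Set

/-- Hypergroups: a multivalued product which satisfies the conditions (H1), (H2), (H3). -/
structure Hypergroup (H : Type) where
  mul : H → H → Set H
  one : H
  star : H → H
  assoc : ∀ p q r, (⋃ x ∈ mul q r, mul p x) = ⋃ x ∈ mul p q, mul x r
  mul_one : ∀ s, mul s one = {s}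
  exchange : ∀ p q r, r ∈ mul p q → q ∈ mul (star p) r ∧ p ∈ mul r (star q)

namespace Hypergroup

variable {H : Type} (𝓗 : Hypergroup H)

/-- The product `P Q` of two subsets. -/
def smul (P Q : Set H) : Set H := ⋃ p ∈ P, ⋃ q ∈ Q, 𝓗.mul p q

/-- `F` is closed: it is nonempty and `F* F ⊆ F`. -/
def IsClosed (F : Set H) : Prop := F.Nonempty ∧ 𝓗.smul (𝓗.star '' F) F ⊆ F

/-- `F h ⊆ h F` for all `h ∈ E`. -/
def NormalIn (F E : Set H) : Prop := ∀ h ∈ E, 𝓗.smul F {h} ⊆ 𝓗.smul {h} F

/-- `h* F h ⊆ F` for all `h ∈ E`. -/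
def StronglyNormalIn (F E : Set H) : Prop := ∀ h ∈ E, 𝓗.smul (𝓗.smul {𝓗.star h} F) {h} ⊆ F

/-- There are closed subsets `F = C 0 ⊆ C 1 ⊆ … ⊆ C n = H`, `n ≥ 1`, with `R (C i) (C (i + 1))` for
`i < n`. -/
def HasChain (R : Set H → Set H → Prop) (F : Set H) : Prop :=
  ∃ (n : ℕ) (C : ℕ → Set H), 1 ≤ n ∧ C 0 = F ∧ C n = univ ∧ (∀ i ≤ n, 𝓗.IsClosed (C i)) ∧
    ∀ i < n, C i ⊆ C (i + 1) ∧ R (C i) (C (i + 1))

/-- Subnormal closed subsets. -/
def Subnormal (F : Set H) : Prop := 𝓗.HasChain 𝓗.NormalIn F

/-- Strongly subnormal closed subsets. -/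
def StronglySubnormal (F : Set H) : Prop := 𝓗.HasChain 𝓗.StronglyNormalIn F

/-- The element `h ^ F = F h F` of `H // F`. -/
def coset (F : Set H) (h : H) : Set H := 𝓗.smul (𝓗.smul F {h}) F

/-- The product `a ^ F · b ^ F = {x ^ F : x ∈ a F b}` in `H // F`. -/
def qmul (F : Set H) (a b : H) : Set (Set H) := 𝓗.coset F '' 𝓗.smul (𝓗.smul {a} F) {b}

/-- The upper central series: `Z 0 = {1}`, and `h ∈ Z (i + 1)` if `h ^ F` is in the centre of
`H // F` for `F = Z i`. -/
def Z : ℕ → Set H
  | 0 => {𝓗.one}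
  | i + 1 => {h | (∀ x, 𝓗.qmul (Z i) h x = 𝓗.qmul (Z i) x h) ∧
      𝓗.qmul (Z i) (𝓗.star h) h = {𝓗.coset (Z i) 𝓗.one}}

/-- `H` is weakly nilpotent. -/
def WeaklyNilpotent : Prop := ∃ n, 𝓗.Z n = univ

end Hypergroup

/-- the multiplication table: the bits `16 (16 p + q) + r`, `r = 0, …, 15`, describe the product of
`p` and `q` -/
def tbl : ℕ :=
  1958259032969222947108242364964131787285552959615328396925538477900964445139253209097076112383025024125842670556835865860746054276007719714799663004043458465541884144056618323610975918323885399508232682145666646162765513871637975981591802329116456353684760949919465848294633309171391336705684960766377298792772133714151686142729424722212779518113899792092970294443576918408248395053320363775167531980075386088391287903543395717668063177658438103889203449053402136046087162149267083105977744276702876505668115087410908944163372152512209081714019143049142913893981501647710779895751379449277551413772745172102878746161624682592136345585036485819020618242811704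58883308348526445284726369731509869253142445795838314997221591973078820021456085298657437811350944808143456748352622823494362518723036257852688434235600323521909904607615017437920828353871348185047730999068117849357806036947935969425605053015838091414281197232373093657596474873430232285064146178824283792309771729806111339300524478156745061213986568807631104176498264548421959245641508610467583238310631540230278490152582076477760018026575622685742365079204607126122228895087190698374596952544489302857647294454814843792883069834625252282426572289007147728258378175204163585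

/-- a row of the table -/
def row (p q : ℕ) : ℕ := (tbl >>> (16 * (16 * p + q))) % 65536

/-- the inverses -/
def st (p : ℕ) : ℕ := (0x547698badcfe3210 >>> (4 * p)) % 16

/-- the union of the `f y` over `y ∈ m`, `y < k` -/
def un (f : ℕ → ℕ) (m : ℕ) : ℕ → ℕ
  | 0 => 0
  | k + 1 => (if m.testBit k then f k else 0) ||| un f m k

theorem testBit_un (f : ℕ → ℕ) (m k x : ℕ) :
    (un f m k).testBit x = true ↔ ∃ y < k, m.testBit y = true ∧ (f y).testBit x = true := by
  induction k with
  | zero => simp [un]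
  | succ k ih =>
    rw [un, Nat.testBit_or, Bool.or_eq_true, ih]
    constructor
    · rintro (h | ⟨y, hy, h⟩)
      · by_cases hk : m.testBit k = true
        · rw [if_pos hk] at h
          exact ⟨k, Nat.lt_succ_self k, hk, h⟩
        · rw [if_neg hk] at h
          simp at h
      · exact ⟨y, Nat.lt_succ_of_lt hy, h⟩
    · rintro ⟨y, hy, h1, h2⟩
      rcases Nat.lt_succ_iff_lt_or_eq.1 hy with h | rfl
      · exact Or.inr ⟨y, h, h1, h2⟩
      · left
        rwa [if_pos h1]

theorem assoc_tbl : ∀ p < 16, ∀ q < 16, ∀ r < 16,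
    un (fun y => row p y) (row q r) 16 = un (fun y => row y r) (row p q) 16 := by
  decide +kernel

theorem st_lt (p : ℕ) : st p < 16 := Nat.mod_lt _ (by norm_num)

theorem row_lt (p q : ℕ) : row p q < 2 ^ 16 := Nat.mod_lt _ (by norm_num)

theorem one_tbl : ∀ p < 16, ∀ r < 16, (row p 0).testBit r = true ↔ r = p := by
  decide +kernel

theorem exchange_tbl : ∀ p < 16, ∀ q < 16, ∀ r < 16, (row p q).testBit r = true →
    (row (st p) r).testBit q = true ∧ (row r (st q)).testBit p = true := by
  decide +kernel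

/-- The hypergroup. -/
def ex : Hypergroup (Fin 16) where
  mul p q := {r | (row p q).testBit r = true}
  one := 0
  star p := ⟨st p, st_lt p⟩
  assoc p q r := by
    ext x
    have h := congrArg (fun m => m.testBit x) (assoc_tbl p p.2 q q.2 r r.2)
    rw [Bool.eq_iff_iff, testBit_un, testBit_un] at h
    simp only [mem_iUnion, mem_ofPred_eq, exists_prop]
    constructor
    · rintro ⟨y, h1, h2⟩
      obtain ⟨z, hz, h3, h4⟩ := h.1 ⟨y, y.2, h1, h2⟩
      exact ⟨⟨z, hz⟩, h3, h4⟩
    · rintro ⟨y, h1, h2⟩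
      obtain ⟨z, hz, h3, h4⟩ := h.2 ⟨y, y.2, h1, h2⟩
      exact ⟨⟨z, hz⟩, h3, h4⟩
  mul_one s := by
    ext r
    simp only [mem_ofPred_eq, mem_singleton_iff, Fin.ext_iff]
    exact one_tbl s s.2 r r.2
  exchange p q r h := exchange_tbl p p.2 q q.2 r r.2 h

theorem mem_mul {p q r : Fin 16} : r ∈ ex.mul p q ↔ (row p q).testBit r = true := Iff.rfl

/-- the mask of the elements of `m` and those obtained from them by products `a* b` -/
def step (m : ℕ) : ℕ := m ||| un (fun a => un (fun b => row (st a) b) m 16) m 16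

theorem step_mem {F : Set (Fin 16)} (hF : ex.IsClosed F) {m : ℕ}
    (hm : ∀ x : Fin 16, m.testBit x = true → x ∈ F) (x : Fin 16)
    (hx : (step m).testBit x = true) : x ∈ F := by
  unfold step at hx
  rw [Nat.testBit_or, Bool.or_eq_true] at hx
  rcases hx with hx | hx
  · exact hm x hx
  obtain ⟨a, ha, ham, h⟩ := (testBit_un _ _ _ _).1 hx
  obtain ⟨b, hb, hbm, h'⟩ := (testBit_un _ _ _ _).1 h
  apply hF.2
  simp only [Hypergroup.smul, mem_iUnion, exists_prop, mem_image]
  exact ⟨_, ⟨⟨a, ha⟩, hm ⟨a, ha⟩ ham, rfl⟩, ⟨b, hb⟩, hm ⟨b, hb⟩ hbm, h'⟩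

theorem step_tbl : ∀ x < 16, 4 ≤ x → step (step (step (step (2 ^ x)))) = 65535 := by
  decide +kernel

theorem testBit_full : ∀ x < 16, Nat.testBit 65535 x = true := by
  decide +kernel

/-- A closed subset with an element outside the group of order four is everything. -/
theorem eq_univ {F : Set (Fin 16)} (hF : ex.IsClosed F) {x : Fin 16} (hx : x ∈ F)
    (h4 : 4 ≤ (x : ℕ)) : F = univ := by
  rw [eq_univ_iff_forall]
  intro y
  have h1 : ∀ z : Fin 16, (2 ^ (x : ℕ) : ℕ).testBit z = true → z ∈ F := by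
    intro z hz
    rw [Nat.testBit_two_pow, decide_eq_true_iff] at hz
    rwa [← Fin.ext hz]
  have h2 := step_mem hF (step_mem hF (step_mem hF (step_mem hF h1)))
  rw [step_tbl x x.2 h4] at h2
  exact h2 y (testBit_full y y.2)

/-- the subgroup of order four -/
def T : Set (Fin 16) := {x | (x : ℕ) < 4}

theorem T_closed_tbl : ∀ a < 4, ∀ b < 4, ∀ x < 16, (row (st a) b).testBit x = true → x < 4 := by
  decide +kernel

theorem T_abelian_tbl : ∀ h < 4, ∀ f < 4, ∀ x < 16,
    (un (fun y => row y h) (row (st h) f) 16).testBit x = true → x = f := by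
  decide +kernel

theorem T_normal_tbl : ∀ h < 16, ∀ f < 4, ∀ x < 16,
    (un (fun y => row y h) (row (st h) f) 16).testBit x = true → x < 4 := by
  decide +kernel

theorem T_closed : ex.IsClosed T := by
  refine ⟨⟨0, by simp [T]⟩, ?_⟩
  intro x hx
  simp only [Hypergroup.smul, mem_iUnion, exists_prop, mem_image] at hx
  obtain ⟨_, ⟨a, ha, rfl⟩, b, hb, h⟩ := hx
  exact T_closed_tbl a ha b hb x x.2 h

theorem mem_conj {F : Set (Fin 16)} {h x : Fin 16}
    (hx : x ∈ ex.smul (ex.smul {ex.star h} F) {h}) :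
    ∃ f ∈ F, (un (fun y => row y h) (row (st h) f) 16).testBit x = true := by
  simp only [Hypergroup.smul, mem_iUnion, exists_prop, mem_singleton_iff] at hx
  obtain ⟨y, ⟨_, rfl, f, hf, hy⟩, _, rfl, hx⟩ := hx
  exact ⟨f, hf, (testBit_un _ _ _ _).2 ⟨y, y.2, hy, hx⟩⟩

theorem univ_closed : ex.IsClosed univ := ⟨⟨0, trivial⟩, subset_univ _⟩

/-- A chain exists from each closed subset. -/
theorem hasChain (R : Set (Fin 16) → Set (Fin 16) → Prop) (hu : R univ univ) (hT : R T univ)
    (hF : ∀ F : Set (Fin 16), F ⊆ T → R F T) {F : Set (Fin 16)} (h : ex.IsClosed F) :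
    ex.HasChain R F := by
  by_cases hFT : F ⊆ T
  · refine ⟨2, fun i => if i = 0 then F else if i = 1 then T else univ, by norm_num, by simp,
      by simp, ?_, ?_⟩
    · intro i _
      simp only
      split_ifs
      · exact h
      · exact T_closed
      · exact univ_closed
    · intro i hi
      interval_cases i
      · simpa using ⟨hFT, hF F hFT⟩
      · simpa using hT
  · obtain ⟨x, hx, hxT⟩ := not_subset.1 hFT
    have : F = univ := eq_univ h hx (not_lt.1 hxT)
    subst this
    exact ⟨1, fun _ => univ, le_rfl, rfl, rfl, fun _ _ => univ_closed, fun _ _ => ⟨subset_rfl, hu⟩⟩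

theorem stronglySubnormal {F : Set (Fin 16)} (h : ex.IsClosed F) : ex.StronglySubnormal F := by
  refine hasChain _ (fun _ _ => subset_univ _) ?_ ?_ h
  · intro h _ x hx
    obtain ⟨f, hf, hx⟩ := mem_conj hx
    exact T_normal_tbl h h.2 f hf x x.2 hx
  · intro F hFT h hh x hx
    obtain ⟨f, hf, hx⟩ := mem_conj hx
    have := T_abelian_tbl h hh f (hFT hf) x x.2 hx
    rwa [Fin.ext this]

namespace Hypergroup

variable {H : Type} (𝓗 : Hypergroup H)

theorem star_star (s : H) : 𝓗.star (𝓗.star s) = s := by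
  have h1 : s ∈ 𝓗.mul s 𝓗.one := by rw [𝓗.mul_one]; rfl
  have h2 := (𝓗.exchange _ _ _ ((𝓗.exchange _ _ _ h1).1)).1
  rw [𝓗.mul_one] at h2
  exact h2.symm

theorem one_mem_mul_star (s : H) : 𝓗.one ∈ 𝓗.mul s (𝓗.star s) := by
  have h1 : 𝓗.star s ∈ 𝓗.mul (𝓗.star s) 𝓗.one := by rw [𝓗.mul_one]; rfl
  have h2 := (𝓗.exchange _ _ _ h1).1
  rwa [𝓗.star_star] at h2

theorem mem_one_mul (x : H) : x ∈ 𝓗.mul 𝓗.one x := by
  have h := (𝓗.exchange _ _ _ (𝓗.one_mem_mul_star x)).2
  rwa [𝓗.star_star] at h

/-- Strong normality implies normality. -/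
theorem normalIn_of_stronglyNormalIn {F E : Set H} (h : 𝓗.StronglyNormalIn F E) :
    𝓗.NormalIn F E := by
  intro t ht x hx
  simp only [smul, mem_iUnion, exists_prop, mem_singleton_iff] at hx
  obtain ⟨f, hf, t', ht', hx⟩ := hx
  rw [ht'] at hx
  have h1 : x ∈ ⋃ y ∈ 𝓗.mul t (𝓗.star t), 𝓗.mul y x :=
    mem_iUnion₂.2 ⟨𝓗.one, 𝓗.one_mem_mul_star t, 𝓗.mem_one_mul x⟩
  rw [← 𝓗.assoc] at h1
  obtain ⟨y, hy, hxy⟩ := mem_iUnion₂.1 h1
  have h2 : y ∈ ⋃ z ∈ 𝓗.mul f t, 𝓗.mul (𝓗.star t) z := mem_iUnion₂.2 ⟨x, hx, hy⟩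
  rw [𝓗.assoc] at h2
  obtain ⟨z, hz, hyz⟩ := mem_iUnion₂.1 h2
  simp only [smul, mem_iUnion, exists_prop, mem_singleton_iff]
  refine ⟨t, rfl, y, h t ht ?_, hxy⟩
  simp only [smul, mem_iUnion, exists_prop, mem_singleton_iff]
  exact ⟨z, ⟨_, rfl, f, hf, hz⟩, _, rfl, hyz⟩

theorem subnormal_of_stronglySubnormal {F : Set H} (h : 𝓗.StronglySubnormal F) :
    𝓗.Subnormal F := by
  obtain ⟨n, C, h1, h2, h3, h4, h5⟩ := h
  exact ⟨n, C, h1, h2, h3, h4, fun i hi =>
    ⟨(h5 i hi).1, 𝓗.normalIn_of_stronglyNormalIn (h5 i hi).2⟩⟩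

end Hypergroup

theorem centre_tbl : ∀ h < 16, (∀ x < 16, row h x = row x h) → row (st h) h = 1 → h = 0 := by
  decide +kernel

theorem one_mul_tbl : ∀ p < 16, row 0 p = 2 ^ p := by
  decide +kernel

theorem mul_one_tbl : ∀ p < 16, row p 0 = 2 ^ p := by
  decide +kernel

theorem one_mul (p : Fin 16) : ex.mul 0 p = {p} := by
  ext x
  rw [mem_mul, mem_singleton_iff]
  have := one_mul_tbl p p.2
  rw [show ((0 : Fin 16) : ℕ) = 0 from rfl, this, Nat.testBit_two_pow, decide_eq_true_iff,
    Fin.ext_iff, eq_comm]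

theorem mul_one (p : Fin 16) : ex.mul p 0 = {p} := ex.mul_one p

theorem coset_one (x : Fin 16) : ex.coset {0} x = {x} := by
  simp [Hypergroup.coset, Hypergroup.smul, one_mul, mul_one]

theorem qmul_one (a b : Fin 16) : ex.qmul {0} a b = (fun x => {x}) '' ex.mul a b := by
  unfold Hypergroup.qmul
  have h1 : ex.coset {0} = fun x => {x} := funext coset_one
  rw [h1]
  congr 1
  simp [Hypergroup.smul, mul_one]

theorem row_eq_of_mul_eq {a b c d : Fin 16} (h : ex.mul a b = ex.mul c d) : row a b = row c d := by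
  apply Nat.eq_of_testBit_eq
  intro i
  by_cases hi : i < 16
  · have : (⟨i, hi⟩ : Fin 16) ∈ ex.mul a b ↔ (⟨i, hi⟩ : Fin 16) ∈ ex.mul c d := by rw [h]
    rw [mem_mul, mem_mul] at this
    exact Bool.eq_iff_iff.2 this
  · have h1 : ∀ p q, (row p q).testBit i = false := fun p q =>
      Nat.testBit_eq_false_of_lt ((row_lt p q).trans_le (Nat.pow_le_pow_right (by norm_num)
        (not_lt.1 hi)))
    rw [h1, h1]

theorem Z_eq (n : ℕ) : ex.Z n = {0} := by
  induction n with
  | zero => rfl
  | succ n ih =>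
    rw [Hypergroup.Z, ih]
    ext h
    simp only [mem_ofPred_eq, qmul_one, coset_one, mem_singleton_iff]
    have hinj : Function.Injective (fun x : Fin 16 => ({x} : Set (Fin 16))) :=
      fun _ _ h => Set.singleton_injective h
    constructor
    · rintro ⟨h1, h2⟩
      have h3 : ∀ x < 16, row h x = row x h := by
        intro x hx
        exact row_eq_of_mul_eq (a := h) (b := ⟨x, hx⟩) (c := ⟨x, hx⟩) (d := h)
          (hinj.image_injective (h1 ⟨x, hx⟩))
      have h4 : ex.mul (ex.star h) h = ex.mul 0 0 := by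
        rw [mul_one]
        apply hinj.image_injective
        simp only [h2, image_singleton]
        rfl
      have h5 : row (st h) h = 1 := row_eq_of_mul_eq h4
      exact Fin.ext (centre_tbl h h.2 h3 h5)
    · rintro rfl
      refine ⟨fun x => by rw [one_mul, mul_one], ?_⟩
      have : ex.star 0 = 0 := rfl
      rw [this, one_mul, image_singleton]
      rfl

/-- There is a hypergroup with 16 elements all of whose closed subsets are strongly subnormal,
and therefore subnormal, while all terms of its upper central series are trivial, so that it is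
not weakly nilpotent. -/
theorem result : ∃ (H : Type) (_ : Finite H) (𝓗 : Hypergroup H), Nat.card H = 16 ∧
    (∀ F, 𝓗.IsClosed F → 𝓗.Subnormal F) ∧ (∀ F, 𝓗.IsClosed F → 𝓗.StronglySubnormal F) ∧
    (∀ n, 𝓗.Z n = {𝓗.one}) ∧ ¬ 𝓗.WeaklyNilpotent := by
  refine ⟨Fin 16, inferInstance, ex, by simp,
    fun F h => ex.subnormal_of_stronglySubnormal (stronglySubnormal h),
    fun F h => stronglySubnormal h, Z_eq, ?_⟩
  rintro ⟨n, h⟩
  rw [Z_eq] at h
  have h1 : (1 : Fin 16) ∈ ({0} : Set (Fin 16)) := by rw [h]; trivial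
  simp at h1

end Pool.Agent.Results.MP_75e066_al.TrivialCentre
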